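import Pool.Agent.PFD.StmtsD1
import Pool.Agent.PFD.D1.Key

/-!
# Squad PFD, row S1B (helper77): flips of the Casimir tensor
-/

open scoped BigOperators

noncomputable section

namespace Pool.Agent.PFD.H77

open Pool.Agent.PFC.B1

section
variable {R B A I J N X : Type} [CommRing R] [Ring B] [Algebra R B] [Ring A] [Algebra R A]
    [Fintype I] [Fintype J] [Fintype N] [AddCommGroup X] [Module R X]

theorem bilG (D : Net R B A I J N) (p q : A) :
    Bil R (fun a b : B => D.T (p * D.j a * q * D.j b)) :=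
  ⟨fun a a' b => by simp only [map_add, mul_add, add_mul, D.T_add],
   fun a b b' => by simp only [map_add, mul_add, D.T_add],
   fun r a b => by simp only [map_smul, mul_smul_comm, smul_mul_assoc, D.T_smul, smul_eq_mul],
   fun r a b => by simp only [map_smul, mul_smul_comm, D.T_smul, smul_eq_mul]⟩

theorem bil_flip {F : B → B → X} (h : Bil R F) : Bil R (fun a b => F b a) :=
  ⟨fun a a' b => h.a2 _ _ _, fun a b b' => h.a1 _ _ _, fun r a b => h.s2 _ _ _,
   fun r a b => h.s1 _ _ _⟩

theorem bil_l {F : B → B → X} (h : Bil R F) (f : B →ₗ[R] B) : Bil R (fun a b => F (f a) b) :=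
  ⟨fun a a' b => by rw [map_add, h.a1], fun a b b' => h.a2 _ _ _,
   fun r a b => by rw [map_smul, h.s1], fun r a b => h.s2 _ _ _⟩

/-- `E z` for the flipped family, as a sum of values of `G_r` -/
theorem E_op_eq (D : Net R B A I J N) (z : B) :
    D.op.E z = ∑ r, ∑ i, ∑ k, D.T (D.y r * D.j (z * (D.c.b' i * D.c.b' k)) * D.x r *
      D.j (D.c.b i * D.c.b k)) := by
  refine Finset.sum_congr rfl fun r _ => Finset.sum_congr rfl fun i _ =>
    Finset.sum_congr rfl fun k _ => ?_
  show D.T (D.u' k * D.x r * D.u i * D.u k * D.y r * D.j z * D.u' i) = _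
  have e1 : D.u' k * D.x r * D.u i * D.u k * D.y r * D.j z * D.u' i =
      (D.u' k * D.x r * D.u i * D.u k) * (D.y r * D.j z * D.u' i) := by noncomm_ring
  rw [e1, D.T_comm]
  congr 1
  simp only [map_mul, Net.u, Net.u']
  noncomm_ring

theorem E_eq (D : Net R B A I J N) (z : B) :
    D.E z = ∑ r, ∑ i, ∑ k, D.T (D.y r * D.j (D.c.b i * D.c.b k) * D.x r *
      D.j (z * (D.c.b' i * D.c.b' k))) := by
  refine Finset.sum_congr rfl fun r _ => Finset.sum_congr rfl fun i _ =>
    Finset.sum_congr rfl fun k _ => ?_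
  have e1 : D.u' k * D.y r * D.u i * D.u k * D.x r * D.j z * D.u' i =
      D.u' k * (D.y r * D.u i * D.u k * D.x r * D.j z * D.u' i) := by noncomm_ring
  rw [e1, D.T_comm]
  congr 1
  simp only [map_mul, Net.u, Net.u']
  noncomm_ring

theorem e1_op_eq (D : Net R B A I J N) (v : B →ₗ[R] B) :
    D.op.e1 v = ∑ r, ∑ i, ∑ k, D.T (D.y r * D.j (D.c.b i * D.c.b k) * D.x r *
      D.j (v (D.c.b' i * D.c.b' k))) := by
  refine Finset.sum_congr rfl fun r _ => Finset.sum_congr rfl fun i _ =>
    Finset.sum_congr rfl fun k _ => ?_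
  show D.T (D.x r * D.j (v (D.c.b' i * D.c.b' k)) * D.y r * D.j (D.c.b i * D.c.b k)) = _
  rw [mul_assoc (D.x r * D.j (v (D.c.b' i * D.c.b' k))), D.T_comm]
  congr 1
  noncomm_ring

theorem E_op (hK : KapStmt) (D : Net R B A I J N) (z : B) (hz : ∀ a, z * a = a * z) :
    D.op.E z = D.E z := by
  rw [E_op_eq, E_eq]
  refine Finset.sum_congr rfl fun r _ => ?_
  have h1 := (hK R B A I J N R D _ (bilG D (D.y r) (D.x r))).2.2.2.1 z hz
  have h2 := (hK R B A I J N R D _
    (bil_flip (bil_l (bil_flip (bilG D (D.y r) (D.x r))) (LinearMap.mulLeft R z)))).1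
  simp only [LinearMap.mulLeft_apply] at h2
  exact h1.trans h2

theorem e1_sum (hK : KapStmt) (D : Net R B A I J N) (v : B →ₗ[R] B) (De : B) (hv : D.Der v De) :
    D.e1 v + D.op.e1 v = - (2 * D.op.E De) := by
  rw [e1_op_eq, E_op_eq]
  unfold Net.e1
  rw [← Finset.sum_add_distrib, Finset.mul_sum, ← Finset.sum_neg_distrib]
  refine Finset.sum_congr rfl fun r _ => ?_
  have h1 := (hK R B A I J N R D _ (bilG D (D.y r) (D.x r))).2.2.2.2 v De hv
  have h2 := (hK R B A I J N R D _
    (bil_flip (bil_l (bil_flip (bilG D (D.y r) (D.x r))) v))).1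
  simp only [smul_eq_mul] at h1
  rw [← h1, h2]

end

theorem s1b (hK : KapStmt) : S1bStmt := by
  intro R B A I J N _ _ _ _ _ _ _ _ D v De hv
  have hE := E_op hK D De hv.cen
  exact ⟨by rw [e1_sum hK D v De hv, hE], hE⟩

end Pool.Agent.PFD.H77
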